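import Mathlib
import Pool.Agent.Helper21.Box.Defs
import Pool.Agent.Helper37.BX.TopDefs
import Pool.Agent.Helper37.BX.Top
import Pool.Agent.Helper12.BX.Main

/-!
# `ω^ω × □^ω(ω+1)` and a subspace of `□^ω(ω+1)` are not countably orthocompact

Definitions: `BoxProd X` (in `Pool.Agent.Helper21.Box.Defs`) is the box product of the family `X`;
`CountablyOrthocompact X` (in `Pool.Agent.Helper37.BX.TopDefs`) says that every countable family of
open sets that covers `X` has an open refinement that covers `X` and is interior-preserving. The
ordinal `ω+1` is `ℕ∞` with the order topology, `ω^ω` is `ℕ → ℕ` with the product topology.

Idea of the proof. A point of `□^ω(ω+1)` is a partial function `y` from `ℕ` to `ℕ`; a value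
carries a key and pointers to coordinates, so that `y` has walks through the coordinates. We
consider the functions whose main walk stops at a missing coordinate `a` (their level) and which
satisfy a closing condition: at every marked coordinate of the main walk the value is at least the
index, in a second walk (the registry of the coordinate), of the target to which the main walk goes
on. With suitable elements of `ω^ω` this is a family of points in which the level is locally
bounded in the whole space. On the other hand, for all neighbourhoods of the points of the family
some point lies in neighbourhoods of points of unbounded level: the points are found one after the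
other, `u_(l+1)` is obtained from `u_l` by an ideal of small sets on a poset of infinite conditions
with countably many promises (monitors), and the bound of the neighbourhood of `u_(l+1)` at its
missing coordinate was guessed in `u_0`, which is built by a fusion. It follows that
`ω^ω × □^ω(ω+1)` is not countably metacompact, and the product with `ω+1`, to which it is
homeomorphic, is not countably orthocompact. Without the elements of `ω^ω` the same holds in the
open set of all extensions of the functions of the family.
-/

set_option autoImplicit false

namespace Pool.Agent.Results.MP_c1f1e9_gt.NotCountablyOrthocompact

open Pool.Agent.Helper21.Box Pool.Agent.Helper37.BX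

/-- The space `ω^ω × □^ω(ω+1)` is not countably orthocompact, and some (open) subspace of
`□^ω(ω+1)` is not countably orthocompact. -/
theorem result :
    ¬ CountablyOrthocompact ((ℕ → ℕ) × BoxProd fun _ : ℕ => ℕ∞) ∧
    ∃ S : Set (BoxProd fun _ : ℕ => ℕ∞), IsOpen S ∧ ¬ CountablyOrthocompact S := by
  refine ⟨not_co_prod Pool.Agent.Helper12.BX.core, ?_⟩
  obtain ⟨S, hS, h, _⟩ := exists_open Pool.Agent.Helper12.BX.core
  exact ⟨S, hS, h⟩

end Pool.Agent.Results.MP_c1f1e9_gt.NotCountablyOrthocompact
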