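import Mathlib
import Pool.Agent.Helper21.Box.Defs
import Pool.Agent.Helper21.Box.General
import Pool.Agent.Helper37.BX.TopDefs
import Pool.Agent.Helper37.BX.Top
import Pool.Agent.Helper12.BX.Main

/-!
# Box products of metrizable spaces need not be metacompact or subparacompact

Definitions: `BoxProd X`, `Metacompact X` and `SigmaMetacompact X` are in
`Pool.Agent.Helper21.Box.Defs`, `CountablyOrthocompact X`, `CountablyMetacompact X` and
`Subparacompact X` in `Pool.Agent.Helper37.BX.TopDefs`. `ω^ω` is `ℕ → ℕ` with the product topology.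

A box product of nonempty metrizable spaces, one of which contains a closed copy of `ω^ω` and
infinitely many of which are not discrete, contains `ω^ω × □^ω(ω+1)` as a closed subspace. This
space is not countably orthocompact, not countably metacompact and not subparacompact (see the
hand-in `NotCountablyOrthocompact` for the idea of the proof), and not sigma-metacompact (this part
is due to the seat helper21: a closed discrete set of partial functions has no open expansion that
is a countable union of point-finite families).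
-/

set_option autoImplicit false

namespace Pool.Agent.Results.MP_c1f1e9_gt.NotSubparacompact

open Pool.Agent.Helper21.Box Pool.Agent.Helper37.BX Topology

/-- (1) A box product of nonempty metrizable spaces, one of which contains a closed copy of the
irrationals and infinitely many of which are not discrete, is not metacompact and not
subparacompact; moreover it is not sigma-metacompact, not countably metacompact and not countably
orthocompact. (2) In particular this holds for every infinite box power of `ω^ω`. -/
theorem result :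
    (∀ (ι : Type) (Y : ι → Type) [∀ i, TopologicalSpace (Y i)]
      [∀ i, TopologicalSpace.MetrizableSpace (Y i)] [∀ i, Nonempty (Y i)] (i₀ : ι),
      (∃ e : (ℕ → ℕ) → Y i₀, IsClosedEmbedding e) → {i | ¬ DiscreteTopology (Y i)}.Infinite →
      ¬ Metacompact (BoxProd Y) ∧ ¬ Subparacompact (BoxProd Y) ∧
      ¬ SigmaMetacompact (BoxProd Y) ∧ ¬ CountablyMetacompact (BoxProd Y) ∧
      ¬ CountablyOrthocompact (BoxProd Y)) ∧
    ∀ (ι : Type) [Infinite ι],
      ¬ Metacompact (BoxProd fun _ : ι => (ℕ → ℕ)) ∧
      ¬ Subparacompact (BoxProd fun _ : ι => (ℕ → ℕ)) ∧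
      ¬ SigmaMetacompact (BoxProd fun _ : ι => (ℕ → ℕ)) ∧
      ¬ CountablyMetacompact (BoxProd fun _ : ι => (ℕ → ℕ)) ∧
      ¬ CountablyOrthocompact (BoxProd fun _ : ι => (ℕ → ℕ)) := by
  have h1 : ∀ (ι : Type) (Y : ι → Type) [∀ i, TopologicalSpace (Y i)]
      [∀ i, TopologicalSpace.MetrizableSpace (Y i)] [∀ i, Nonempty (Y i)] (i₀ : ι),
      (∃ e : (ℕ → ℕ) → Y i₀, IsClosedEmbedding e) → {i | ¬ DiscreteTopology (Y i)}.Infinite →
      ¬ Metacompact (BoxProd Y) ∧ ¬ Subparacompact (BoxProd Y) ∧
      ¬ SigmaMetacompact (BoxProd Y) ∧ ¬ CountablyMetacompact (BoxProd Y) ∧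
      ¬ CountablyOrthocompact (BoxProd Y) := by
    intro ι Y _ _ _ i₀ h₀ hinf
    have h := not_sigma_of_metrizable Y i₀ h₀ hinf
    obtain ⟨h2, h3, h4⟩ := not_of_metrizable Pool.Agent.Helper12.BX.core Y i₀ h₀ hinf
    exact ⟨fun hM => h hM.sigma, h4, h, h3, h2⟩
  refine ⟨h1, ?_⟩
  intro ι _
  refine h1 ι (fun _ => (ℕ → ℕ)) (Classical.arbitrary ι) ⟨id, IsClosedEmbedding.id⟩ ?_
  have hnd : ¬ DiscreteTopology (ℕ → ℕ) := by
    intro hd
    obtain ⟨I, V, hV, hVO⟩ := isOpen_pi_iff.1 (isOpen_discrete ({fun _ => 0} : Set (ℕ → ℕ)))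
      (fun _ => 0) rfl
    obtain ⟨n, hn⟩ := Infinite.exists_notMem_finset I
    have h2 : Function.update (fun _ : ℕ => (0 : ℕ)) n 1 ∈ (I : Set ℕ).pi V := by
      intro i hi
      have hne : i ≠ n := by rintro rfl; exact hn hi
      rw [Function.update_of_ne hne]
      exact (hV i hi).2
    have h3 := congrFun (hVO h2) n
    rw [Function.update_self] at h3
    exact one_ne_zero h3
  have : {i : ι | ¬ DiscreteTopology (ℕ → ℕ)} = Set.univ := by
    ext i
    simp [hnd]
  rw [this]
  exact Set.infinite_univ

end Pool.Agent.Results.MP_c1f1e9_gt.NotSubparacompact
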